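import Pool.Agent.Lib.MP_dd6cbd_pr.Check

/-! The subdivision certificate. -/

namespace Pool.Agent.Lib.MP_dd6cbd_pr

theorem n0 : Cov ![![5, 1, 1, 1], ![1, 1, 0, 0], ![1, 1, 1, 0], ![1, 1, 1, 1]]
    ![![1, 1, 0, 0, 0], ![0, 1, 0, 0, 0], ![0, 0, 1, 0, 0], ![0, 0, 0, 1, 0], ![0, 0, 0, 0, 1]] :=
  Cov.leafA sym_sw12 6 9 (by decide +kernel)

theorem n1 : Cov ![![5, 1, 1, 1], ![1, 1, 0, 0], ![1, 1, 1, 0], ![1, 1, 1, 1]]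
    ![![1, 0, 1, 0, 0], ![1, 1, 0, 0, 0], ![0, 0, 1, 0, 0], ![0, 0, 0, 1, 0], ![0, 0, 0, 0, 1]] :=
  Cov.leafA sym_sw12 6 9 (by decide +kernel)

theorem n2 : Cov ![![5, 1, 1, 1], ![1, 1, 0, 0], ![1, 1, 1, 0], ![1, 1, 1, 1]]
    ![![1, 0, 0, 1, 0], ![1, 1, 0, 0, 0], ![1, 0, 1, 0, 0], ![0, 0, 0, 1, 0], ![0, 0, 0, 0, 1]] :=
  Cov.leafA sym_sw12 6 9 (by decide +kernel)

theorem n3 : Cov ![![5, 1, 1, 1], ![1, 1, 0, 0], ![1, 1, 1, 0], ![1, 1, 1, 1]]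
    ![![1, 0, 0, 0, 1], ![1, 1, 0, 0, 0], ![1, 0, 1, 0, 0], ![1, 0, 0, 1, 0], ![0, 0, 0, 0, 1]] :=
  Cov.leafA (sym_sw01.comp sym_sw12) 7 10 (by decide +kernel)

theorem n4 : Cov ![![5, 1, 1, 1], ![1, 1, 0, 0], ![1, 1, 1, 0], ![1, 1, 1, 1]]
    ![![3, 1, 0, 0, 0], ![1, 1, 0, 0, 0], ![1, 0, 1, 0, 0], ![1, 0, 0, 1, 0], ![1, 0, 0, 0, 1]] :=
  Cov.leafA sym_sw12 5 9 (by decide +kernel)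

theorem n5 : Cov ![![5, 1, 1, 1], ![1, 1, 0, 0], ![1, 1, 1, 0], ![1, 1, 1, 1]]
    ![![3, 0, 1, 0, 0], ![3, 1, 0, 0, 0], ![1, 0, 1, 0, 0], ![1, 0, 0, 1, 0], ![1, 0, 0, 0, 1]] :=
  Cov.leafA sym_sw12 5 8 (by decide +kernel)

theorem n6 : Cov ![![5, 1, 1, 1], ![1, 1, 0, 0], ![1, 1, 1, 0], ![1, 1, 1, 1]]
    ![![3, 0, 0, 1, 0], ![3, 1, 0, 0, 0], ![3, 0, 1, 0, 0], ![1, 0, 0, 1, 0], ![1, 0, 0, 0, 1]] :=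
  Cov.leafA sym_sw12 5 8 (by decide +kernel)

theorem n7 : Cov ![![5, 1, 1, 1], ![3, 3, 1, 1], ![7, 7, 7, 3], ![1, 1, 1, 1]]
    ![![3, 0, 0, 0, 1], ![3, 1, 0, 0, 0], ![3, 0, 1, 0, 0], ![3, 0, 0, 1, 0], ![1, 0, 0, 0, 1]] :=
  Cov.leafA (sym_sw01.comp sym_sw12) 5 8 (by decide +kernel)

theorem n8 : Cov ![![5, 1, 1, 1], ![3, 3, 1, 1], ![7, 7, 7, 3], ![1, 1, 1, 1]]
    ![![7, 1, 0, 0, 0], ![3, 1, 0, 0, 0], ![3, 0, 1, 0, 0], ![3, 0, 0, 1, 0], ![3, 0, 0, 0, 1]] :=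
  Cov.leafA (sym_sw01.comp sym_sw12) 5 9 (by decide +kernel)

theorem n9 : Cov ![![5, 1, 1, 1], ![3, 3, 1, 1], ![7, 7, 7, 3], ![1, 1, 1, 1]]
    ![![7, 0, 1, 0, 0], ![7, 1, 0, 0, 0], ![3, 0, 1, 0, 0], ![3, 0, 0, 1, 0], ![3, 0, 0, 0, 1]] :=
  Cov.leafA (sym_sw01.comp sym_sw12) 5 9 (by decide +kernel)

theorem n10 : Cov ![![5, 1, 1, 1], ![3, 3, 1, 1], ![7, 7, 7, 3], ![1, 1, 1, 1]]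
    ![![7, 0, 0, 1, 0], ![7, 1, 0, 0, 0], ![7, 0, 1, 0, 0], ![3, 0, 0, 1, 0], ![3, 0, 0, 0, 1]] :=
  Cov.leafA (sym_sw01.comp sym_sw12) 5 9 (by decide +kernel)

theorem n11 : Cov ![![5, 1, 1, 1], ![3, 3, 1, 1], ![7, 7, 7, 3], ![1, 1, 1, 1]]
    ![![7, 0, 0, 0, 1], ![7, 1, 0, 0, 0], ![7, 0, 1, 0, 0], ![7, 0, 0, 1, 0], ![3, 0, 0, 0, 1]] :=
  Cov.leafA (sym_sw01.comp sym_sw12) 5 9 (by decide +kernel)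

theorem n12 : Cov ![![7, 3, 3, 3], ![3, 3, 1, 1], ![7, 7, 7, 3], ![1, 1, 1, 1]]
    ![![15, 1, 0, 0, 0], ![7, 1, 0, 0, 0], ![7, 0, 1, 0, 0], ![7, 0, 0, 1, 0], ![7, 0, 0, 0, 1]] :=
  Cov.leafA (sym_sw01.comp sym_sw12) 6 10 (by decide +kernel)

theorem n13 : Cov ![![7, 3, 3, 3], ![3, 3, 1, 1], ![7, 7, 7, 3], ![1, 1, 1, 1]]
    ![![15, 0, 1, 0, 0], ![15, 1, 0, 0, 0], ![7, 0, 1, 0, 0], ![7, 0, 0, 1, 0], ![7, 0, 0, 0, 1]] :=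
  Cov.leafA (sym_sw01.comp sym_sw12) 6 10 (by decide +kernel)

theorem n14 : Cov ![![7, 3, 3, 3], ![3, 3, 1, 1], ![7, 7, 7, 3], ![1, 1, 1, 1]]
    ![![15, 0, 0, 1, 0], ![15, 1, 0, 0, 0], ![15, 0, 1, 0, 0], ![7, 0, 0, 1, 0], ![7, 0, 0, 0, 1]] :=
  Cov.leafA (sym_sw01.comp sym_sw12) 7 9 (by decide +kernel)

theorem n15 : Cov ![![7, 3, 3, 3], ![3, 3, 1, 1], ![7, 7, 7, 3], ![1, 1, 1, 1]]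
    ![![15, 0, 0, 0, 1], ![15, 1, 0, 0, 0], ![15, 0, 1, 0, 0], ![15, 0, 0, 1, 0], ![7, 0, 0, 0, 1]] :=
  Cov.leafA (sym_sw01.comp sym_sw12) 7 9 (by decide +kernel)

theorem n16 : Cov ![![7, 3, 3, 3], ![3, 3, 1, 1], ![13, 13, 13, 9], ![1, 1, 1, 1]]
    ![![1, 0, 0, 0, 0], ![15, 1, 0, 0, 0], ![15, 0, 1, 0, 0], ![15, 0, 0, 1, 0], ![15, 0, 0, 0, 1]] :=
  Cov.leafS (by decide +kernel)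

theorem n17 : Cov ![![7, 3, 3, 3], ![3, 3, 1, 1], ![7, 7, 7, 3], ![13, 13, 13, 9]]
    ![![1, 0, 0, 0, 0], ![15, 1, 0, 0, 0], ![15, 0, 1, 0, 0], ![15, 0, 0, 1, 0], ![15, 0, 0, 0, 1]] :=
  Cov.leafE 10 9 9 3802 (by decide +kernel)

theorem n18 : Cov ![![7, 3, 3, 3], ![3, 3, 1, 1], ![7, 7, 7, 3], ![1, 1, 1, 1]]
    ![![1, 0, 0, 0, 0], ![15, 1, 0, 0, 0], ![15, 0, 1, 0, 0], ![15, 0, 0, 1, 0], ![15, 0, 0, 0, 1]] :=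
  Cov.splitV 2 3 1 6 1 ![13, 13, 13, 9] n16 n17 (by decide +kernel)

theorem n19 : Cov ![![7, 3, 3, 3], ![3, 3, 1, 1], ![7, 7, 7, 3], ![1, 1, 1, 1]]
    ![![1, 0, 0, 0, 0], ![15, 1, 0, 0, 0], ![15, 0, 1, 0, 0], ![15, 0, 0, 1, 0], ![7, 0, 0, 0, 1]] :=
  Cov.splitU 0 4 8 1 1 ![15, 0, 0, 0, 1] n15 n18 (by decide +kernel)

theorem n20 : Cov ![![7, 3, 3, 3], ![3, 3, 1, 1], ![7, 7, 7, 3], ![1, 1, 1, 1]]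
    ![![1, 0, 0, 0, 0], ![15, 1, 0, 0, 0], ![15, 0, 1, 0, 0], ![7, 0, 0, 1, 0], ![7, 0, 0, 0, 1]] :=
  Cov.splitU 0 3 8 1 1 ![15, 0, 0, 1, 0] n14 n19 (by decide +kernel)

theorem n21 : Cov ![![7, 3, 3, 3], ![3, 3, 1, 1], ![7, 7, 7, 3], ![1, 1, 1, 1]]
    ![![1, 0, 0, 0, 0], ![15, 1, 0, 0, 0], ![7, 0, 1, 0, 0], ![7, 0, 0, 1, 0], ![7, 0, 0, 0, 1]] :=
  Cov.splitU 0 2 8 1 1 ![15, 0, 1, 0, 0] n13 n20 (by decide +kernel)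

theorem n22 : Cov ![![7, 3, 3, 3], ![3, 3, 1, 1], ![7, 7, 7, 3], ![1, 1, 1, 1]]
    ![![1, 0, 0, 0, 0], ![7, 1, 0, 0, 0], ![7, 0, 1, 0, 0], ![7, 0, 0, 1, 0], ![7, 0, 0, 0, 1]] :=
  Cov.splitU 0 1 8 1 1 ![15, 1, 0, 0, 0] n12 n21 (by decide +kernel)

theorem n23 : Cov ![![5, 1, 1, 1], ![3, 3, 1, 1], ![7, 7, 7, 3], ![7, 3, 3, 3]]
    ![![1, 0, 0, 0, 0], ![7, 1, 0, 0, 0], ![7, 0, 1, 0, 0], ![7, 0, 0, 1, 0], ![7, 0, 0, 0, 1]] :=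
  Cov.leafE 10 9 9 3802 (by decide +kernel)

theorem n24 : Cov ![![5, 1, 1, 1], ![3, 3, 1, 1], ![7, 7, 7, 3], ![1, 1, 1, 1]]
    ![![1, 0, 0, 0, 0], ![7, 1, 0, 0, 0], ![7, 0, 1, 0, 0], ![7, 0, 0, 1, 0], ![7, 0, 0, 0, 1]] :=
  Cov.splitV 0 3 1 2 1 ![7, 3, 3, 3] n22 n23 (by decide +kernel)

theorem n25 : Cov ![![5, 1, 1, 1], ![3, 3, 1, 1], ![7, 7, 7, 3], ![1, 1, 1, 1]]
    ![![1, 0, 0, 0, 0], ![7, 1, 0, 0, 0], ![7, 0, 1, 0, 0], ![7, 0, 0, 1, 0], ![3, 0, 0, 0, 1]] :=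
  Cov.splitU 0 4 4 1 1 ![7, 0, 0, 0, 1] n11 n24 (by decide +kernel)

theorem n26 : Cov ![![5, 1, 1, 1], ![3, 3, 1, 1], ![7, 7, 7, 3], ![1, 1, 1, 1]]
    ![![1, 0, 0, 0, 0], ![7, 1, 0, 0, 0], ![7, 0, 1, 0, 0], ![3, 0, 0, 1, 0], ![3, 0, 0, 0, 1]] :=
  Cov.splitU 0 3 4 1 1 ![7, 0, 0, 1, 0] n10 n25 (by decide +kernel)

theorem n27 : Cov ![![5, 1, 1, 1], ![3, 3, 1, 1], ![7, 7, 7, 3], ![1, 1, 1, 1]]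
    ![![1, 0, 0, 0, 0], ![7, 1, 0, 0, 0], ![3, 0, 1, 0, 0], ![3, 0, 0, 1, 0], ![3, 0, 0, 0, 1]] :=
  Cov.splitU 0 2 4 1 1 ![7, 0, 1, 0, 0] n9 n26 (by decide +kernel)

theorem n28 : Cov ![![5, 1, 1, 1], ![3, 3, 1, 1], ![7, 7, 7, 3], ![1, 1, 1, 1]]
    ![![1, 0, 0, 0, 0], ![3, 1, 0, 0, 0], ![3, 0, 1, 0, 0], ![3, 0, 0, 1, 0], ![3, 0, 0, 0, 1]] :=
  Cov.splitU 0 1 4 1 1 ![7, 1, 0, 0, 0] n8 n27 (by decide +kernel)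

theorem n29 : Cov ![![5, 1, 1, 1], ![3, 3, 1, 1], ![7, 7, 7, 3], ![1, 1, 1, 1]]
    ![![1, 0, 0, 0, 0], ![3, 1, 0, 0, 0], ![3, 0, 1, 0, 0], ![3, 0, 0, 1, 0], ![1, 0, 0, 0, 1]] :=
  Cov.splitU 0 4 2 1 1 ![3, 0, 0, 0, 1] n7 n28 (by decide +kernel)

theorem n30 : Cov ![![5, 1, 1, 1], ![3, 3, 1, 1], ![1, 1, 1, 0], ![7, 7, 7, 3]]
    ![![7, 0, 1, 0, 0], ![3, 1, 0, 0, 0], ![3, 0, 1, 0, 0], ![3, 0, 0, 1, 0], ![1, 0, 0, 0, 1]] :=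
  Cov.leafA (sym_sw01.comp sym_sw12) 5 12 (by decide +kernel)

theorem n31 : Cov ![![5, 1, 1, 1], ![3, 3, 1, 1], ![1, 1, 1, 0], ![7, 7, 7, 3]]
    ![![7, 0, 0, 1, 0], ![3, 1, 0, 0, 0], ![7, 0, 1, 0, 0], ![3, 0, 0, 1, 0], ![1, 0, 0, 0, 1]] :=
  Cov.leafA (sym_sw01.comp sym_sw12) 5 12 (by decide +kernel)

theorem n32 : Cov ![![5, 1, 1, 1], ![3, 3, 1, 1], ![1, 1, 1, 0], ![7, 7, 7, 3]]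
    ![![1, 0, 0, 0, 0], ![3, 1, 0, 0, 0], ![7, 0, 1, 0, 0], ![7, 0, 0, 1, 0], ![1, 0, 0, 0, 1]] :=
  Cov.leafE 13 8 7 3880 (by decide +kernel)

theorem n33 : Cov ![![5, 1, 1, 1], ![3, 3, 1, 1], ![1, 1, 1, 0], ![7, 7, 7, 3]]
    ![![1, 0, 0, 0, 0], ![3, 1, 0, 0, 0], ![7, 0, 1, 0, 0], ![3, 0, 0, 1, 0], ![1, 0, 0, 0, 1]] :=
  Cov.splitU 0 3 4 1 1 ![7, 0, 0, 1, 0] n31 n32 (by decide +kernel)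

theorem n34 : Cov ![![5, 1, 1, 1], ![3, 3, 1, 1], ![1, 1, 1, 0], ![7, 7, 7, 3]]
    ![![1, 0, 0, 0, 0], ![3, 1, 0, 0, 0], ![3, 0, 1, 0, 0], ![3, 0, 0, 1, 0], ![1, 0, 0, 0, 1]] :=
  Cov.splitU 0 2 4 1 1 ![7, 0, 1, 0, 0] n30 n33 (by decide +kernel)

theorem n35 : Cov ![![5, 1, 1, 1], ![3, 3, 1, 1], ![1, 1, 1, 0], ![1, 1, 1, 1]]
    ![![1, 0, 0, 0, 0], ![3, 1, 0, 0, 0], ![3, 0, 1, 0, 0], ![3, 0, 0, 1, 0], ![1, 0, 0, 0, 1]] :=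
  Cov.splitV 2 3 4 3 1 ![7, 7, 7, 3] n29 n34 (by decide +kernel)

theorem n36 : Cov ![![5, 1, 1, 1], ![41, 41, 11, 3], ![17, 17, 11, 3], ![3, 3, 1, 1]]
    ![![1, 0, 0, 0, 0], ![3, 1, 0, 0, 0], ![3, 0, 1, 0, 0], ![3, 0, 0, 1, 0], ![1, 0, 0, 0, 1]] :=
  Cov.leafE 10 8 5 3568 (by decide +kernel)

theorem n37 : Cov ![![5, 1, 1, 1], ![1, 1, 0, 0], ![41, 41, 11, 3], ![3, 3, 1, 1]]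
    ![![1, 0, 0, 0, 0], ![3, 1, 0, 0, 0], ![3, 0, 1, 0, 0], ![3, 0, 0, 1, 0], ![1, 0, 0, 0, 1]] :=
  Cov.leafA (sym_sw01.comp sym_sw12) 3 12 (by decide +kernel)

theorem n38 : Cov ![![5, 1, 1, 1], ![1, 1, 0, 0], ![17, 17, 11, 3], ![3, 3, 1, 1]]
    ![![1, 0, 0, 0, 0], ![3, 1, 0, 0, 0], ![3, 0, 1, 0, 0], ![3, 0, 0, 1, 0], ![1, 0, 0, 0, 1]] :=
  Cov.splitV 1 2 24 1 1 ![41, 41, 11, 3] n36 n37 (by decide +kernel)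

theorem n39 : Cov ![![5, 1, 1, 1], ![1, 1, 0, 0], ![1, 1, 1, 0], ![17, 17, 11, 3]]
    ![![1, 0, 0, 0, 0], ![3, 1, 0, 0, 0], ![3, 0, 1, 0, 0], ![3, 0, 0, 1, 0], ![1, 0, 0, 0, 1]] :=
  Cov.leafA sym_sw12 2 9 (by decide +kernel)

theorem n40 : Cov ![![5, 1, 1, 1], ![1, 1, 0, 0], ![1, 1, 1, 0], ![3, 3, 1, 1]]
    ![![1, 0, 0, 0, 0], ![3, 1, 0, 0, 0], ![3, 0, 1, 0, 0], ![3, 0, 0, 1, 0], ![1, 0, 0, 0, 1]] :=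
  Cov.splitV 2 3 8 3 1 ![17, 17, 11, 3] n38 n39 (by decide +kernel)

theorem n41 : Cov ![![5, 1, 1, 1], ![1, 1, 0, 0], ![1, 1, 1, 0], ![1, 1, 1, 1]]
    ![![1, 0, 0, 0, 0], ![3, 1, 0, 0, 0], ![3, 0, 1, 0, 0], ![3, 0, 0, 1, 0], ![1, 0, 0, 0, 1]] :=
  Cov.splitV 1 3 2 1 1 ![3, 3, 1, 1] n35 n40 (by decide +kernel)

theorem n42 : Cov ![![5, 1, 1, 1], ![1, 1, 0, 0], ![1, 1, 1, 0], ![1, 1, 1, 1]]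
    ![![1, 0, 0, 0, 0], ![3, 1, 0, 0, 0], ![3, 0, 1, 0, 0], ![1, 0, 0, 1, 0], ![1, 0, 0, 0, 1]] :=
  Cov.splitU 0 3 2 1 1 ![3, 0, 0, 1, 0] n6 n41 (by decide +kernel)

theorem n43 : Cov ![![5, 1, 1, 1], ![1, 1, 0, 0], ![1, 1, 1, 0], ![1, 1, 1, 1]]
    ![![1, 0, 0, 0, 0], ![3, 1, 0, 0, 0], ![1, 0, 1, 0, 0], ![1, 0, 0, 1, 0], ![1, 0, 0, 0, 1]] :=
  Cov.splitU 0 2 2 1 1 ![3, 0, 1, 0, 0] n5 n42 (by decide +kernel)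

theorem n44 : Cov ![![5, 1, 1, 1], ![1, 1, 0, 0], ![1, 1, 1, 0], ![1, 1, 1, 1]]
    ![![1, 0, 0, 0, 0], ![1, 1, 0, 0, 0], ![1, 0, 1, 0, 0], ![1, 0, 0, 1, 0], ![1, 0, 0, 0, 1]] :=
  Cov.splitU 0 1 2 1 1 ![3, 1, 0, 0, 0] n4 n43 (by decide +kernel)

theorem n45 : Cov ![![5, 1, 1, 1], ![1, 1, 0, 0], ![1, 1, 1, 0], ![1, 1, 1, 1]]
    ![![1, 0, 0, 0, 0], ![1, 1, 0, 0, 0], ![1, 0, 1, 0, 0], ![1, 0, 0, 1, 0], ![0, 0, 0, 0, 1]] :=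
  Cov.splitU 0 4 1 1 1 ![1, 0, 0, 0, 1] n3 n44 (by decide +kernel)

theorem n46 : Cov ![![5, 1, 1, 1], ![1, 1, 0, 0], ![1, 1, 1, 0], ![1, 1, 1, 1]]
    ![![1, 0, 0, 0, 0], ![1, 1, 0, 0, 0], ![1, 0, 1, 0, 0], ![0, 0, 0, 1, 0], ![0, 0, 0, 0, 1]] :=
  Cov.splitU 0 3 1 1 1 ![1, 0, 0, 1, 0] n2 n45 (by decide +kernel)

theorem n47 : Cov ![![5, 1, 1, 1], ![1, 1, 0, 0], ![1, 1, 1, 0], ![1, 1, 1, 1]]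
    ![![1, 0, 0, 0, 0], ![1, 1, 0, 0, 0], ![0, 0, 1, 0, 0], ![0, 0, 0, 1, 0], ![0, 0, 0, 0, 1]] :=
  Cov.splitU 0 2 1 1 1 ![1, 0, 1, 0, 0] n1 n46 (by decide +kernel)

theorem n48 : Cov ![![5, 1, 1, 1], ![1, 1, 0, 0], ![1, 1, 1, 0], ![1, 1, 1, 1]]
    ![![1, 0, 0, 0, 0], ![0, 1, 0, 0, 0], ![0, 0, 1, 0, 0], ![0, 0, 0, 1, 0], ![0, 0, 0, 0, 1]] :=
  Cov.splitU 0 1 1 1 1 ![1, 1, 0, 0, 0] n0 n47 (by decide +kernel)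

theorem n49 : Cov ![![1, 0, 0, 0], ![1, 1, 0, 0], ![1, 1, 1, 0], ![5, 1, 1, 1]]
    ![![1, 0, 0, 0, 0], ![0, 1, 0, 0, 0], ![0, 0, 1, 1, 0], ![0, 0, 0, 1, 0], ![0, 0, 0, 0, 1]] :=
  Cov.leafA sym_id 2 6 (by decide +kernel)

theorem n50 : Cov ![![1, 0, 0, 0], ![1, 1, 0, 0], ![1, 1, 1, 0], ![5, 1, 1, 1]]
    ![![1, 0, 0, 0, 0], ![0, 1, 0, 0, 0], ![0, 0, 1, 0, 0], ![0, 0, 1, 1, 0], ![0, 0, 0, 0, 1]] :=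
  Cov.leafA sym_sw12 2 8 (by decide +kernel)

theorem n51 : Cov ![![1, 0, 0, 0], ![1, 1, 0, 0], ![1, 1, 1, 0], ![5, 1, 1, 1]]
    ![![1, 0, 0, 0, 0], ![0, 1, 0, 0, 0], ![0, 0, 1, 0, 0], ![0, 0, 0, 1, 0], ![0, 0, 0, 0, 1]] :=
  Cov.splitU 2 3 1 1 1 ![0, 0, 1, 1, 0] n49 n50 (by decide +kernel)

theorem n52 : Cov ![![1, 0, 0, 0], ![1, 1, 0, 0], ![1, 1, 1, 0], ![1, 1, 1, 1]]
    ![![1, 0, 0, 0, 0], ![0, 1, 0, 0, 0], ![0, 0, 1, 0, 0], ![0, 0, 0, 1, 0], ![0, 0, 0, 0, 1]] :=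
  Cov.splitV 0 3 4 1 1 ![5, 1, 1, 1] n48 n51 (by decide +kernel)

end Pool.Agent.Lib.MP_dd6cbd_pr
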