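import Pool.Agent.Lib.MP_dd6cbd_pr.Core

/-! The two families of approximating distributions and the integer check. -/

open Finset

namespace Pool.Agent.Lib.MP_dd6cbd_pr

def lg (m : ℕ) (s : ℕ) : ℕ → ℕ :=
  Nat.rec (fun k => k) (fun s ih k => if 2 ^ (k + 2 ^ s) ≤ m then ih (k + 2 ^ s) else ih k) s

theorem lg_succ (m s k : ℕ) :
    lg m (s + 1) k = if 2 ^ (k + 2 ^ s) ≤ m then lg m s (k + 2 ^ s) else lg m s k := rfl

theorem lg_le (m s : ℕ) : ∀ k, 2 ^ k ≤ m → 2 ^ lg m s k ≤ m := by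
  induction s with
  | zero => exact fun k h => h
  | succ s ih =>
    intro k h
    rw [lg_succ]
    split_ifs with h1
    exacts [ih _ h1, ih _ h]

theorem lt_lg (m s : ℕ) : ∀ k, m < 2 ^ (k + 2 ^ s) → m < 2 ^ (lg m s k + 1) := by
  induction s with
  | zero => exact fun k h => h
  | succ s ih =>
    intro k h
    rw [lg_succ]
    split_ifs with h1
    · exact ih _ (by rwa [add_assoc, ← two_mul, ← pow_succ'])
    · exact ih _ (not_le.mp h1)

@[irreducible] def lo (n : ℕ) : ℕ := lg (n ^ 1024) 16 0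

theorem lo_le {n : ℕ} (hn : 0 < n) : (lo n : ℝ) * Real.log 2 ≤ 1024 * Real.log n := by
  have h : 2 ^ lo n ≤ n ^ 1024 := by
    unfold lo; exact lg_le _ _ _ (Nat.one_le_pow _ _ hn)
  have h' : (2 : ℝ) ^ lo n ≤ (n : ℝ) ^ 1024 := by exact_mod_cast h
  have := Real.log_le_log (by positivity) h'
  rwa [Real.log_pow, Real.log_pow] at this

theorem le_hi {n : ℕ} (hn : 0 < n) (hn' : n < 2 ^ 64) :
    1024 * Real.log n ≤ ((lo n : ℝ) + 1) * Real.log 2 := by
  have h : n ^ 1024 < 2 ^ (lo n + 1) := by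
    unfold lo
    refine lt_lg _ _ _ ((Nat.pow_lt_pow_left hn' (by norm_num)).trans_eq ?_)
    rw [← pow_mul]; congr 1
  have h' : (n : ℝ) ^ 1024 ≤ (2 : ℝ) ^ (lo n + 1) := by exact_mod_cast h.le
  have := Real.log_le_log (by positivity) h'
  rw [Real.log_pow, Real.log_pow] at this
  exact_mod_cast this

theorem sqrt3_bounds : 1.732 ≤ √3 ∧ √3 ≤ 1.7321 :=
  ⟨Real.le_sqrt_of_sq_le (by norm_num), Real.sqrt_le_iff.mpr ⟨by norm_num, by norm_num⟩⟩

theorem cst_ge : 850 * Real.log 2 ≤ 1024 * cst := by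
  have h1 : (28 / 13 : ℝ) ≤ 1 + 2 / √3 := by
    have := sqrt3_bounds
    have : (15 / 13 : ℝ) ≤ 2 / √3 := by
      rw [le_div_iff₀ (by linarith [this.1])]; linarith [this.2]
    linarith
  have h2 : 2 ^ 850 * 13 ^ 768 ≤ 28 ^ 768 := by decide +kernel
  have h3 : (2 : ℝ) ^ 850 ≤ (28 / 13) ^ 768 := by
    rw [div_pow, le_div_iff₀ (by positivity)]; exact_mod_cast h2
  have h4 := Real.log_le_log (by positivity) (h3.trans (pow_le_pow_left₀ (by norm_num) h1 768))
  rw [Real.log_pow, Real.log_pow] at h4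
  unfold cst
  push_cast at h4
  linarith

def appN (K : X → X → ℕ) (P : X → ℕ) (v : X) : ℕ := ∑ w, K v w * P w

def chk (K : X → X → ℕ) (D : ℕ) (g : X → ℤ) (P : X → ℕ) : Prop :=
  0 ≤ ∑ w, g w * P w ∧ (∀ v, P v * D < 2 ^ 64) ∧ (∀ v, 0 < P v → 0 < appN K P v) ∧
    ∑ v, P v * (lo (P v * D) + 1) ≤ ∑ v, P v * lo (appN K P v) + 850 * ∑ v, P v

instance (K : X → X → ℕ) (D : ℕ) (g : X → ℤ) (P : X → ℕ) : Decidable (chk K D g P) := by
  unfold chk; infer_instance

theorem chk_ok {KN : X → X → ℕ} {D : ℕ} {gN : X → ℤ} {K : X → X → ℝ} {g : X → ℝ} (hD : 0 < D)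
    (hK : ∀ v w, (KN v w : ℝ) ≤ D * K v w) (hg : ∀ w, (gN w : ℝ) ≤ g w) {P : X → ℕ}
    (h : chk KN D gN P) : OkV K g fun v => (P v : ℝ) := by
  obtain ⟨h1, hb, h2, h3⟩ := h
  have hD' : (0 : ℝ) < D := by exact_mod_cast hD
  constructor
  · have : (0 : ℝ) ≤ ∑ w, (gN w : ℝ) * P w := by exact_mod_cast h1
    exact this.trans (sum_le_sum fun w _ => mul_le_mul_of_nonneg_right (hg w) (by positivity))
  · refine Ok.mono (q := fun v => (appN KN P v : ℝ) / D) ⟨fun v => by positivity,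
      fun v => by positivity, fun v hv => ?_, ?_⟩ fun v => ?_
    · have : (0 : ℝ) < appN KN P v := by exact_mod_cast h2 v (Nat.cast_pos.mp hv)
      positivity
    · have h3' : ∑ v, (P v : ℝ) * (lo (P v * D) + 1)
          ≤ ∑ v, (P v : ℝ) * lo (appN KN P v) + 850 * ∑ v, (P v : ℝ) := by exact_mod_cast h3
      have l2 : 0 < Real.log 2 := Real.log_pos (by norm_num)
      have key : ∀ v, 1024 * ((P v : ℝ) * Real.log (P v / (appN KN P v / D)))
          ≤ (P v * (lo (P v * D) + 1) - P v * lo (appN KN P v)) * Real.log 2 := by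
        intro v
        rcases Nat.eq_zero_or_pos (P v) with h0 | h0
        · generalize lo (P v * D) = a; rw [h0]; simp
        · have a1 := le_hi (Nat.mul_pos h0 hD) (hb v)
          have a2 := lo_le (h2 v h0)
          have p1 : (0 : ℝ) < P v := by exact_mod_cast h0
          have p2 : (0 : ℝ) < appN KN P v := by exact_mod_cast h2 v h0
          rw [div_div_eq_mul_div, Real.log_div (by positivity) p2.ne']
          push_cast at a1
          nlinarith
      have s := sum_le_sum fun v (_ : v ∈ univ) => key v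
      rw [← mul_sum, ← sum_mul, sum_sub_distrib] at s
      have t : (0 : ℝ) ≤ ∑ v, (P v : ℝ) := by positivity
      have := mul_le_mul_of_nonneg_right cst_ge t
      have u := mul_le_mul_of_nonneg_right (sub_le_iff_le_add'.mpr h3') l2.le
      unfold KL
      beta_reduce
      linarith
    · rw [div_le_iff₀ hD']
      simp only [appN, app, Nat.cast_sum, Nat.cast_mul, sum_mul]
      refine sum_le_sum fun w _ => ?_
      have := mul_le_mul_of_nonneg_right (hK v w) (show (0 : ℝ) ≤ P w by positivity)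
      linarith

/-! First family: keep the law of the first two bits, resample the third given the first. -/

def KA (r0 r1 : ℕ) (v w : X) : ℕ :=
  if v.1 = w.1 ∧ v.2.1 = w.2.1 then ![![16 - r0, r0], ![16 - r1, r1]] v.1 v.2.2 else 0

theorem sound_KA {r0 r1 : ℕ} (h0 : r0 ≤ 16) (h1 : r1 ≤ 16) :
    Sound (fun v w => (KA r0 r1 v w : ℝ) / 16) fun _ => 0 := by
  intro p hp _
  have a0 : (r0 : ℝ) ≤ 16 := by exact_mod_cast h0
  have a1 : (r1 : ℝ) ≤ 16 := by exact_mod_cast h1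
  constructor
  · refine ⟨![1, 0], fun y => p (0, y, 0) + p (0, y, 1), ![(16 - r0) / 16, r0 / 16],
      ![0, 1], fun y => p (1, y, 0) + p (1, y, 1), ![(16 - r1) / 16, r1 / 16], fun x => ?_, ?_⟩
    · have := add_nonneg (hp (0, x, 0)) (hp (0, x, 1))
      have := add_nonneg (hp (1, x, 0)) (hp (1, x, 1))
      have b0 : (0 : ℝ) ≤ (16 - r0) / 16 := by linarith
      have b1 : (0 : ℝ) ≤ (16 - r1) / 16 := by linarith
      have c0 : (0 : ℝ) ≤ r0 / 16 := by positivity
      have c1 : (0 : ℝ) ≤ r1 / 16 := by positivity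
      fin_cases x <;> refine ⟨?_, by assumption, ?_, ?_, by assumption, ?_⟩ <;>
        first | assumption | exact zero_le_one | exact le_rfl
    · rintro ⟨x, y, z⟩
      fin_cases x <;> fin_cases y <;> fin_cases z <;>
        simp [app, KA, Fintype.sum_prod_type, h0, h1] <;> ring
  · simp [app, KA, Fintype.sum_prod_type, h0, h1]
    linarith

theorem Cov.leafA {V : Fin 4 → Fin 4 → ℕ} {U : Fin 5 → Fin 5 → ℕ} {e : X → X} (he : Sym e)
    (r0 r1 : ℕ) (h : r0 ≤ 16 ∧ r1 ≤ 16 ∧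
      ∀ j l, chk (KA r0 r1) 16 (fun _ => 0) fun v => vert V U j l (e v)) : Cov V U :=
  Cov.leaf he (sound_KA h.1 h.2.1) fun j l =>
    chk_ok (by norm_num) (fun v w => le_of_eq (by push_cast; ring)) (fun _ => by simp) (h.2.2 j l)

/-! Second family: a point mass at the origin mixed with a product law. -/

def prd {R : Type} [Mul R] (t0 t1 t2 : Fin 2 → R) (v : X) : R := t0 v.1 * t1 v.2.1 * t2 v.2.2

noncomputable def KE (t0 t1 t2 : Fin 2 → ℝ) (R : ℝ) (v w : X) : ℝ :=
  if v = 0 then (if w = 0 then 1 else 0) else if w = 0 then 0 else prd t0 t1 t2 v / R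

noncomputable def gE (t0 t1 t2 : Fin 2 → ℝ) (R : ℝ) (w : X) : ℝ :=
  if w = 0 then R else -prd t0 t1 t2 0

theorem sound_KE {t0 t1 t2 : Fin 2 → ℝ} {R : ℝ} (ht : ∀ x, 0 ≤ t0 x ∧ 0 ≤ t1 x ∧ 0 ≤ t2 x)
    (hR : 0 < R) (hR' : R + t0 0 * t1 0 * t2 0 = (t0 0 + t0 1) * (t1 0 + t1 1) * (t2 0 + t2 1)) :
    Sound (KE t0 t1 t2 R) (gE t0 t1 t2 R) := by
  intro p hp hg
  set n := p (0, 0, 1) + p (0, 1, 0) + p (0, 1, 1) + p (1, 0, 0) + p (1, 0, 1) + p (1, 1, 0)
    + p (1, 1, 1) with hn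
  have n0 : 0 ≤ n := by
    have := hp (0, 0, 1); have := hp (0, 1, 0); have := hp (0, 1, 1); have := hp (1, 0, 0)
    have := hp (1, 0, 1); have := hp (1, 1, 0); have := hp (1, 1, 1)
    positivity
  have hg' : n / R * (t0 0 * t1 0 * t2 0) ≤ p 0 := by
    simp [gE, prd, Fintype.sum_prod_type, Prod.ext_iff] at hg
    rw [div_mul_eq_mul_div, div_le_iff₀ hR, hn]
    change _ ≤ p (0, 0, 0) * R
    linarith
  have e : ∀ v, app (KE t0 t1 t2 R) p v = if v = 0 then p 0 else n / R * prd t0 t1 t2 v := by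
    intro v
    split_ifs with h
    · simp [app, KE, h]
    · simp [app, KE, h, Fintype.sum_prod_type, Prod.ext_iff, hn]; ring
  constructor
  · refine ⟨fun x => n / R * t0 x, t1, t2, ![p 0 - n / R * (t0 0 * t1 0 * t2 0), 0], ![1, 0],
      ![1, 0], fun x => ⟨mul_nonneg (by positivity) (ht x).1, (ht x).2.1, (ht x).2.2, ?_⟩, ?_⟩
    · fin_cases x <;> simp [hg']
    · rintro ⟨x, y, z⟩
      rw [e]
      fin_cases x <;> fin_cases y <;> fin_cases z <;> simp [prd, Prod.ext_iff] <;> ring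
  · simp only [e]
    simp [Fintype.sum_prod_type, Prod.ext_iff, prd]
    have : n / R * R = n := div_mul_cancel₀ _ hR.ne'
    change p (0, 0, 0) + _ + _ + _ ≤ _
    linear_combination (n / R) * hR'.symm + this + hn

def KEN (ρ : X → ℕ) (D : ℕ) (v w : X) : ℕ :=
  if v = 0 then (if w = 0 then D else 0) else if w = 0 then 0 else ρ v

def gEN (a b : ℕ) (w : X) : ℤ := if w = 0 then a else -b

theorem Cov.leafE {V : Fin 4 → Fin 4 → ℕ} {U : Fin 5 → Fin 5 → ℕ} (a b c D : ℕ)
    (h : 0 < D ∧ a ≤ 16 ∧ b ≤ 16 ∧ c ≤ 16 ∧ D + (16 - a) * (16 - b) * (16 - c) = 4096 ∧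
      ∀ j l, chk (KEN (prd ![16 - a, a] ![16 - b, b] ![16 - c, c]) D) D
        (gEN D ((16 - a) * (16 - b) * (16 - c))) (vert V U j l)) : Cov V U := by
  obtain ⟨hD, ha, hb, hc, hs, h⟩ := h
  have hD' : (0 : ℝ) < D := by exact_mod_cast hD
  refine Cov.leaf sym_id (sound_KE (t0 := fun x => (![16 - a, a] x : ℕ))
    (t1 := fun x => (![16 - b, b] x : ℕ)) (t2 := fun x => (![16 - c, c] x : ℕ)) (R := D)
    (fun x => ⟨by positivity, by positivity, by positivity⟩) hD' ?_) fun j l =>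
    chk_ok hD (fun v w => le_of_eq ?_) (fun w => le_of_eq ?_) (h j l)
  · have : ((D + (16 - a) * (16 - b) * (16 - c) : ℕ) : ℝ) = 4096 := by exact_mod_cast hs
    simp [ha, hb, hc] at this ⊢
    linarith
  · unfold KEN KE prd
    split_ifs
    · simp
    · simp
    · simp
    · push_cast; field_simp
  · unfold gEN gE prd
    split_ifs <;> simp

def star (P : X → ℕ) : Prop :=
  P (0, 0, 1) = 0 ∧ P (0, 1, 0) = 0 ∧ P (1, 0, 0) = 0 ∧ P (1, 1, 1) = 0 ∧ 0 < P (0, 0, 0) ∧
    P (0, 1, 1) = P (0, 0, 0) ∧ P (1, 0, 1) = P (0, 0, 0) ∧ P (1, 1, 0) = P (0, 0, 0)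

instance (P : X → ℕ) : Decidable (star P) := by unfold star; infer_instance

def rhoS (v : X) : ℕ := ![0, 893, 1547, 2679] (v.1.castLE (by norm_num) + v.2.1.castLE (by norm_num)
  + v.2.2.castLE (by norm_num) : Fin 4)

theorem Cov.leafS {V : Fin 4 → Fin 4 → ℕ} {U : Fin 5 → Fin 5 → ℕ}
    (h : ∀ j l, star (vert V U j l) ∨ chk (KEN rhoS 10000) 10000 (gEN 19 1) (vert V U j l)) :
    Cov V U := by
  obtain ⟨s1, s2⟩ := sqrt3_bounds
  have s3 : √3 * √3 = 3 := Real.mul_self_sqrt (by norm_num)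
  have hR : (0 : ℝ) < 9 + 6 * √3 := by positivity
  refine Cov.leaf sym_id (sound_KE (t0 := ![1, √3]) (t1 := ![1, √3]) (t2 := ![1, √3])
    (R := 9 + 6 * √3) (fun x => by fin_cases x <;> simp) hR ?_) fun j l => ?_
  · simp; linear_combination -(3 + √3) * s3
  rcases h j l with h | h
  · obtain ⟨h1, h2, h3, h4, h5, h6, h7, h8⟩ := h
    simp only [id]
    set P := vert V U j l
    have h5' : (0 : ℝ) < P (0, 0, 0) := by exact_mod_cast h5
    have e : ∀ v, app (KE ![1, √3] ![1, √3] ![1, √3] (9 + 6 * √3)) (fun v => (P v : ℝ)) v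
        = if v = 0 then (P (0, 0, 0) : ℝ)
          else 3 * P (0, 0, 0) / (9 + 6 * √3) * prd ![1, √3] ![1, √3] ![1, √3] v := by
      intro v
      split_ifs with hv
      · simp [app, KE, hv]; rfl
      · simp [app, KE, hv, Fintype.sum_prod_type, Prod.ext_iff, h1, h2, h3, h4, h6, h7, h8]; ring
    have hpos : ∀ v, 0 < app (KE ![1, √3] ![1, √3] ![1, √3] (9 + 6 * √3)) (fun v => (P v : ℝ)) v := by
      rintro ⟨x, y, z⟩
      rw [e]
      split_ifs
      · exact h5'
      · refine mul_pos (by positivity) ?_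
        fin_cases x <;> fin_cases y <;> fin_cases z <;> simp [prd]
    refine ⟨?_, fun v => by positivity, fun v => (hpos v).le, fun v _ => hpos v, le_of_eq ?_⟩
    · simp [gE, prd, Fintype.sum_prod_type, Prod.ext_iff, h1, h2, h3, h4, h6, h7, h8]
      nlinarith
    · have e2 : (P (0, 0, 0) : ℝ) / (3 * P (0, 0, 0) / (9 + 6 * √3) * 3) = 1 + 2 / √3 := by
        field_simp; linear_combination 6 * s3
      unfold KL
      simp only [e]
      simp [prd, Fintype.sum_prod_type, Prod.ext_iff, h1, h2, h3, h4, h6, h7, h8, h5'.ne', e2, cst]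
      ring
  · refine chk_ok (by norm_num) ?_ (fun w => ?_) h
    · rintro ⟨x, y, z⟩ w
      unfold KEN KE
      split_ifs with h1
      · simp
      · simp
      · simp
      · rw [← mul_div_assoc, le_div_iff₀ hR]
        fin_cases x <;> fin_cases y <;> fin_cases z <;> simp [rhoS, prd] <;> nlinarith
    · unfold gEN gE prd
      split_ifs
      · push_cast; linarith
      · simp

end Pool.Agent.Lib.MP_dd6cbd_pr
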