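import Pool.Agent.Lib.MP_dd6cbd_pr.Defs

/-! Convex pieces covering the simplex: general lemmas. -/

open Finset

namespace Pool.Agent.Lib.MP_dd6cbd_pr

abbrev X := Fin 2 × Fin 2 × Fin 2

noncomputable def cst : ℝ := 3 / 4 * Real.log (1 + 2 / √3)

def Ok (p q : X → ℝ) : Prop :=
  (∀ v, 0 ≤ p v) ∧ (∀ v, 0 ≤ q v) ∧ (∀ v, 0 < p v → 0 < q v) ∧ KL p q ≤ cst * ∑ v, p v

def InM (q : X → ℝ) : Prop :=
  ∃ a0 a1 a2 b0 b1 b2 : Fin 2 → ℝ, (∀ x, 0 ≤ a0 x ∧ 0 ≤ a1 x ∧ 0 ≤ a2 x ∧ 0 ≤ b0 x ∧ 0 ≤ b1 x ∧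
    0 ≤ b2 x) ∧ ∀ v : X, q v = a0 v.1 * a1 v.2.1 * a2 v.2.2 + b0 v.1 * b1 v.2.1 * b2 v.2.2

def Good (p : X → ℝ) : Prop := ∃ q, InM q ∧ ∑ v, q v ≤ ∑ v, p v ∧ Ok p q

theorem logsum_one {a b p q : ℝ} (ha : 0 ≤ a) (hb : 0 ≤ b) (hab : 0 < a → 0 < b) (hp : 0 < p)
    (hq : 0 < q) : a * Real.log (p / q) + (a - b * (p / q)) ≤ a * Real.log (a / b) := by
  rcases ha.eq_or_lt with rfl | ha
  · have : 0 ≤ b * (p / q) := by positivity
    simpa using this
  · have hb := hab ha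
    have h := Real.log_le_sub_one_of_pos (x := (p / q) / (a / b)) (by positivity)
    rw [Real.log_div (by positivity) (by positivity)] at h
    have h2 := mul_le_mul_of_nonneg_left h ha.le
    have e : a * (p / q / (a / b) - 1) = b * (p / q) - a := by field_simp
    rw [e] at h2
    linarith

theorem Ok.sum {ι : Type} [Fintype ι] {w : ι → ℝ} (hw : ∀ i, 0 ≤ w i) {P Q : ι → X → ℝ}
    (h : ∀ i, Ok (P i) (Q i)) : Ok (fun v => ∑ i, w i * P i v) (fun v => ∑ i, w i * Q i v) := by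
  have hp : ∀ v, 0 ≤ ∑ i, w i * P i v := fun v =>
    sum_nonneg fun i _ => mul_nonneg (hw i) ((h i).1 v)
  have hq : ∀ v, 0 ≤ ∑ i, w i * Q i v := fun v =>
    sum_nonneg fun i _ => mul_nonneg (hw i) ((h i).2.1 v)
  have hac : ∀ v, 0 < ∑ i, w i * P i v → 0 < ∑ i, w i * Q i v := by
    intro v hv
    obtain ⟨i, -, hi⟩ := exists_lt_of_sum_lt (s := univ) (f := fun _ => (0 : ℝ))
      (g := fun i => w i * P i v) (by simpa using hv)
    have h1 : 0 < w i := (hw i).lt_of_ne fun h0 => by simp [← h0] at hi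
    have h2 : 0 < P i v := (pos_iff_pos_of_mul_pos hi).mp h1
    exact lt_of_lt_of_le (mul_pos h1 ((h i).2.2.1 v h2))
      (single_le_sum (f := fun i => w i * Q i v)
        (fun i _ => mul_nonneg (hw i) ((h i).2.1 v)) (mem_univ i))
  refine ⟨hp, hq, hac, ?_⟩
  have key : ∀ v, (∑ i, w i * P i v) * Real.log ((∑ i, w i * P i v) / ∑ i, w i * Q i v)
      ≤ ∑ i, w i * (P i v * Real.log (P i v / Q i v)) := by
    intro v
    rcases (hp v).eq_or_lt with h0 | h0
    · rw [← h0, zero_mul]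
      refine sum_nonneg fun i _ => ?_
      have := (sum_eq_zero_iff_of_nonneg (fun i _ => mul_nonneg (hw i) ((h i).1 v))).mp h0.symm i
        (mem_univ i)
      rw [← mul_assoc, this, zero_mul]
    · have h1 := hac v h0
      set p := ∑ i, w i * P i v with hp'
      set q := ∑ i, w i * Q i v with hq'
      have := sum_le_sum (s := univ) fun i _ => mul_le_mul_of_nonneg_left
        (logsum_one ((h i).1 v) ((h i).2.1 v) ((h i).2.2.1 v) h0 h1) (hw i)
      refine le_trans (le_of_eq ?_) this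
      have e : ∀ i, w i * (P i v * Real.log (p / q) + (P i v - Q i v * (p / q)))
          = w i * P i v * Real.log (p / q) + w i * P i v - w i * Q i v * (p / q) := fun i => by ring
      simp only [e, sum_sub_distrib, sum_add_distrib, ← sum_mul, ← hp', ← hq']
      field_simp
      ring
  calc KL _ _ ≤ ∑ v, ∑ i, w i * (P i v * Real.log (P i v / Q i v)) := sum_le_sum fun v _ => key v
    _ = ∑ i, w i * KL (P i) (Q i) := by rw [sum_comm]; simp only [KL, mul_sum]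
    _ ≤ ∑ i, w i * (cst * ∑ v, P i v) :=
      sum_le_sum fun i _ => mul_le_mul_of_nonneg_left (h i).2.2.2 (hw i)
    _ = _ := by
      rw [sum_comm, mul_sum]
      refine sum_congr rfl fun i _ => ?_
      rw [← mul_sum]; ring

theorem Ok.mono {p q q' : X → ℝ} (h : Ok p q) (hq : ∀ v, q v ≤ q' v) : Ok p q' := by
  refine ⟨h.1, fun v => (h.2.1 v).trans (hq v), fun v hv => (h.2.2.1 v hv).trans_le (hq v),
    le_trans (sum_le_sum fun v _ => ?_) h.2.2.2⟩
  rcases (h.1 v).eq_or_lt with h0 | h0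
  · rw [← h0]; simp
  · have h1 := h.2.2.1 v h0
    have h2 := h1.trans_le (hq v)
    exact mul_le_mul_of_nonneg_left (Real.log_le_log (by positivity)
      (div_le_div_of_nonneg_left h0.le h1 (hq v))) h0.le

def app (K : X → X → ℝ) (p : X → ℝ) (v : X) : ℝ := ∑ w, K v w * p w

def Sound (K : X → X → ℝ) (g : X → ℝ) : Prop :=
  ∀ p : X → ℝ, (∀ v, 0 ≤ p v) → 0 ≤ ∑ w, g w * p w →
    InM (app K p) ∧ ∑ v, app K p v ≤ ∑ v, p v

def OkV (K : X → X → ℝ) (g : X → ℝ) (p : X → ℝ) : Prop :=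
  0 ≤ ∑ w, g w * p w ∧ Ok p (app K p)

theorem Sound.good {K : X → X → ℝ} {g : X → ℝ} (hK : Sound K g) {ι : Type} [Fintype ι]
    {w : ι → ℝ} (hw : ∀ i, 0 ≤ w i) {P : ι → X → ℝ} (h : ∀ i, OkV K g (P i)) :
    Good fun v => ∑ i, w i * P i v := by
  have h1 := Ok.sum hw fun i => (h i).2
  have e : (fun v => ∑ i, w i * app K (P i) v) = app K fun v => ∑ i, w i * P i v := by
    funext v
    simp only [app, mul_sum]
    rw [sum_comm]
    exact sum_congr rfl fun _ _ => sum_congr rfl fun _ _ => by ring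
  rw [e] at h1
  have h2 : 0 ≤ ∑ u, g u * ∑ i, w i * P i u := by
    simp only [mul_sum]
    rw [sum_comm]
    refine sum_nonneg fun i _ => ?_
    have := mul_nonneg (hw i) (h i).1
    rw [mul_sum] at this
    exact this.trans_eq (sum_congr rfl fun _ _ => by ring)
  exact ⟨_, (hK _ h1.1 h2).1, (hK _ h1.1 h2).2, h1⟩

/-! Symmetries -/

def Sym (e : X → X) : Prop := ∀ p : X → ℝ, Good (p ∘ e) → Good p

theorem sym_of_equiv (e : X ≃ X) (h : ∀ q, InM q → InM (q ∘ e.symm)) : Sym e := by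
  rintro p ⟨q, h1, h2, h3, h4, h5, h6⟩
  have s1 : ∑ v, (q ∘ e.symm) v = ∑ v, q v := e.symm.sum_comp q
  have s2 : ∑ v, (p ∘ e) v = ∑ v, p v := e.sum_comp p
  refine ⟨q ∘ e.symm, h q h1, by rw [s1, ← s2]; exact h2, fun v => by simpa using h3 (e.symm v),
    fun v => h4 _, fun v hv => h5 (e.symm v) (by simpa using hv), ?_⟩
  rw [← s2]
  refine le_trans (le_of_eq ?_) h6
  unfold KL
  rw [← e.sum_comp]
  simp

theorem Sym.comp {e f : X → X} (he : Sym e) (hf : Sym f) : Sym (e ∘ f) :=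
  fun p h => he p (hf _ h)

theorem sym_id : Sym id := fun _ h => h

def sw01 (v : X) : X := (v.2.1, v.1, v.2.2)
def sw12 (v : X) : X := (v.1, v.2.2, v.2.1)
def fl0 (v : X) : X := (v.1.rev, v.2.1, v.2.2)

theorem sym_sw01 : Sym sw01 :=
  sym_of_equiv ⟨sw01, sw01, fun _ => rfl, fun _ => rfl⟩ fun q ⟨a0, a1, a2, b0, b1, b2, h1, h2⟩ =>
    ⟨a1, a0, a2, b1, b0, b2, fun x => by have := h1 x; tauto, fun v => by
      simp only [Equiv.coe_fn_symm_mk, Function.comp_apply, h2, sw01]; ring⟩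

theorem sym_sw12 : Sym sw12 :=
  sym_of_equiv ⟨sw12, sw12, fun _ => rfl, fun _ => rfl⟩ fun q ⟨a0, a1, a2, b0, b1, b2, h1, h2⟩ =>
    ⟨a0, a2, a1, b0, b2, b1, fun x => by have := h1 x; tauto, fun v => by
      simp only [Equiv.coe_fn_symm_mk, Function.comp_apply, h2, sw12]; ring⟩

theorem sym_fl0 : Sym fl0 :=
  sym_of_equiv ⟨fl0, fl0, fun _ => by simp [fl0], fun _ => by simp [fl0]⟩
    fun q ⟨a0, a1, a2, b0, b1, b2, h1, h2⟩ =>
    ⟨fun x => a0 x.rev, a1, a2, fun x => b0 x.rev, b1, b2, fun x => by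
      have := h1 x; have := h1 x.rev; tauto, fun v => by
      simp only [Equiv.coe_fn_symm_mk, Function.comp_apply, h2, fl0]⟩

/-! Cones and subdivision -/

def InCone {n m : ℕ} (V : Fin n → Fin m → ℕ) (x : Fin m → ℝ) : Prop :=
  ∃ lam : Fin n → ℝ, (∀ j, 0 ≤ lam j) ∧ ∀ k, x k = ∑ j, lam j * V j k

theorem InCone.split_aux {n m : ℕ} {V : Fin n → Fin m → ℕ} {x : Fin m → ℝ} {a b : Fin n}
    (hab : a ≠ b) {α β g : ℕ} (hα : 0 < α) (hg : 0 < g) {M : Fin m → ℕ}
    (hM : ∀ k, g * M k = α * V a k + β * V b k) (lam : Fin n → ℝ) (h0 : ∀ j, 0 ≤ lam j)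
    (hx : ∀ k, x k = ∑ j, lam j * V j k) (hle : lam a * β ≤ lam b * α) :
    InCone (Function.update V a M) x := by
  have hα' : (0 : ℝ) < α := by exact_mod_cast hα
  have hg' : (0 : ℝ) < g := by exact_mod_cast hg
  refine ⟨fun j => if j = a then lam a * g / α else if j = b then lam b - lam a * β / α else lam j,
    fun j => ?_, fun k => ?_⟩
  · dsimp only
    split_ifs
    · have := h0 a; positivity
    · rw [sub_nonneg, div_le_iff₀ hα']; exact hle
    · exact h0 j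
  · have hM' : (g : ℝ) * M k = α * V a k + β * V b k := by exact_mod_cast hM k
    rw [hx k, ← sub_eq_zero, ← sum_sub_distrib,
      sum_eq_add_of_mem a b (mem_univ a) (mem_univ b) hab]
    · simp only [if_true, Function.update_self, if_neg hab.symm, Function.update_of_ne hab.symm]
      field_simp
      linear_combination -(lam a) * hM'
    · rintro c - ⟨h1, h2⟩
      simp [h1, h2]

theorem InCone.split {n m : ℕ} {V : Fin n → Fin m → ℕ} {x : Fin m → ℝ} (h : InCone V x)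
    {a b : Fin n} (hab : a ≠ b) {α β g : ℕ} (hα : 0 < α) (hβ : 0 < β) (hg : 0 < g)
    {M : Fin m → ℕ} (hM : ∀ k, g * M k = α * V a k + β * V b k) :
    InCone (Function.update V a M) x ∨ InCone (Function.update V b M) x := by
  obtain ⟨lam, h0, hx⟩ := h
  rcases le_total (lam a * β) (lam b * α) with hle | hle
  · exact Or.inl (InCone.split_aux hab hα hg hM lam h0 hx hle)
  · exact Or.inr (InCone.split_aux hab.symm hβ hg (fun k => by rw [hM k, add_comm]) lam h0 hx hle)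

def asm {R : Type} (m : Fin 4 → R) (s : Fin 5 → R) (v : X) : R :=
  ![![![m 0, s 2], ![s 3, m 3]], ![![s 4, m 2], ![m 1, s 1]]] v.1 v.2.1 v.2.2

def Cov (V : Fin 4 → Fin 4 → ℕ) (U : Fin 5 → Fin 5 → ℕ) : Prop :=
  ∀ m s, InCone V m → InCone U s → ∑ k, m k = ∑ k, s k → 0 < ∑ k, m k → Good (asm m s)

theorem Cov.splitV {V V1 V2 : Fin 4 → Fin 4 → ℕ} {U : Fin 5 → Fin 5 → ℕ} (a b : Fin 4)
    (α β g : ℕ) (M : Fin 4 → ℕ) (h1 : Cov V1 U) (h2 : Cov V2 U)
    (h : a ≠ b ∧ 0 < α ∧ 0 < β ∧ 0 < g ∧ (∀ k, g * M k = α * V a k + β * V b k) ∧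
      (∀ j k, V1 j k = Function.update V a M j k) ∧ ∀ j k, V2 j k = Function.update V b M j k) :
    Cov V U := by
  obtain ⟨hab, hα, hβ, hg, hM, e1, e2⟩ := h
  obtain rfl : V1 = Function.update V a M := funext₂ e1
  obtain rfl : V2 = Function.update V b M := funext₂ e2
  intro m s hm hs
  rcases hm.split hab hα hβ hg hM with h | h
  · exact h1 m s h hs
  · exact h2 m s h hs

theorem Cov.splitU {V : Fin 4 → Fin 4 → ℕ} {U U1 U2 : Fin 5 → Fin 5 → ℕ} (a b : Fin 5)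
    (α β g : ℕ) (M : Fin 5 → ℕ) (h1 : Cov V U1) (h2 : Cov V U2)
    (h : a ≠ b ∧ 0 < α ∧ 0 < β ∧ 0 < g ∧ (∀ k, g * M k = α * U a k + β * U b k) ∧
      (∀ j k, U1 j k = Function.update U a M j k) ∧ ∀ j k, U2 j k = Function.update U b M j k) :
    Cov V U := by
  obtain ⟨hab, hα, hβ, hg, hM, e1, e2⟩ := h
  obtain rfl : U1 = Function.update U a M := funext₂ e1
  obtain rfl : U2 = Function.update U b M := funext₂ e2
  intro m s hm hs
  rcases hs.split hab hα hβ hg hM with h | h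
  · exact h1 m s hm h
  · exact h2 m s hm h

def vert (V : Fin 4 → Fin 4 → ℕ) (U : Fin 5 → Fin 5 → ℕ) (j : Fin 4) (l : Fin 5) : X → ℕ :=
  asm (fun k => (∑ i, U l i) * V j k) (fun k => (∑ i, V j i) * U l k)

theorem Cov.leaf {V : Fin 4 → Fin 4 → ℕ} {U : Fin 5 → Fin 5 → ℕ} {e : X → X} (he : Sym e)
    {K : X → X → ℝ} {g : X → ℝ} (hK : Sound K g)
    (h : ∀ j l, OkV K g fun v => (vert V U j l (e v) : ℝ)) : Cov V U := by
  rintro m s ⟨lam, hl, hm⟩ ⟨mu, hmu, hs⟩ hsum hpos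
  apply he
  set S := ∑ k, m k with hS
  have := hK.good (ι := Fin 4 × Fin 5) (w := fun i => lam i.1 * mu i.2 / S)
    (fun i => div_nonneg (mul_nonneg (hl _) (hmu _)) hpos.le)
    (P := fun i v => (vert V U i.1 i.2 (e v) : ℝ)) fun i => h i.1 i.2
  have e1 : S = ∑ j, lam j * ∑ i, (V j i : ℝ) := by
    simp only [hS, hm, mul_sum]; exact sum_comm
  have e2 : S = ∑ l, mu l * ∑ i, (U l i : ℝ) := by
    rw [hsum]; simp only [hs, mul_sum]; exact sum_comm
  have k1 : ∀ k, m k = ∑ i : Fin 4 × Fin 5,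
      lam i.1 * mu i.2 / S * (((∑ t, U i.2 t) * V i.1 k : ℕ) : ℝ) := by
    intro k
    rw [Fintype.sum_prod_type, hm k]
    refine sum_congr rfl fun j _ => ?_
    have : ∀ l, lam j * mu l / S * (((∑ t, U l t) * V j k : ℕ) : ℝ)
        = lam j * V j k / S * (mu l * ∑ i, (U l i : ℝ)) := fun l => by push_cast; ring
    simp only [this]
    rw [← mul_sum, ← e2]; field_simp
  have k2 : ∀ k, s k = ∑ i : Fin 4 × Fin 5,
      lam i.1 * mu i.2 / S * (((∑ t, V i.1 t) * U i.2 k : ℕ) : ℝ) := by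
    intro k
    rw [Fintype.sum_prod_type_right, hs k]
    refine sum_congr rfl fun l _ => ?_
    have : ∀ j, lam j * mu l / S * (((∑ t, V j t) * U l k : ℕ) : ℝ)
        = mu l * U l k / S * (lam j * ∑ i, (V j i : ℝ)) := fun j => by push_cast; ring
    simp only [this]
    rw [← mul_sum, ← e1]; field_simp
  have e3 : ∀ v, asm m s v = ∑ i : Fin 4 × Fin 5,
      lam i.1 * mu i.2 / S * (vert V U i.1 i.2 v : ℝ) := by
    rintro ⟨x, y, z⟩
    fin_cases x <;> fin_cases y <;> fin_cases z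
    exacts [k1 0, k2 2, k2 3, k1 3, k2 4, k1 2, k1 1, k2 1]
  have e4 : asm m s ∘ e = fun v => ∑ i : Fin 4 × Fin 5,
      lam i.1 * mu i.2 / S * (vert V U i.1 i.2 (e v) : ℝ) := funext fun v => e3 (e v)
  rw [e4]; exact this

end Pool.Agent.Lib.MP_dd6cbd_pr
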