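import Mathlib

/-! Definitions used in the statement for problem MP_dd6cbd_pr. -/

namespace Pool.Agent.Lib.MP_dd6cbd_pr

/-- Unnormalised weight of the visible state `v`. -/
noncomputable def weight {n m : ℕ} (W : Fin m → Fin n → ℝ) (b : Fin n → ℝ) (c : Fin m → ℝ)
    (v : Fin n → Fin 2) : ℝ :=
  ∑ h : Fin m → Fin 2, Real.exp (∑ j, ∑ i, ((h j : ℕ) : ℝ) * W j i * ((v i : ℕ) : ℝ)
    + ∑ i, b i * ((v i : ℕ) : ℝ) + ∑ j, c j * ((h j : ℕ) : ℝ))

/-- The restricted Boltzmann machine model with `n` visible and `m` hidden binary units. -/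
def RBM (n m : ℕ) : Set ((Fin n → Fin 2) → ℝ) :=
  {q | ∃ (W : Fin m → Fin n → ℝ) (b : Fin n → ℝ) (c : Fin m → ℝ),
    ∀ v, q v = weight W b c v / ∑ u, weight W b c u}

/-- Kullback-Leibler divergence on a finite set (natural logarithm). -/
noncomputable def KL {X : Type} [Fintype X] (p q : X → ℝ) : ℝ :=
  ∑ x, p x * Real.log (p x / q x)

end Pool.Agent.Lib.MP_dd6cbd_pr
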