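import Pool.Agent.Lib.MP_dd6cbd_pr.Cert

/-! Symmetry reduction, smoothing, the lower bound and the final assembly. -/

open Finset Filter Topology

namespace Pool.Agent.Lib.MP_dd6cbd_pr

def Adm (p : X → ℝ) : Prop := (∀ v, 0 ≤ p v) ∧ 0 < p (0, 0, 0) + p (1, 1, 0) + p (1, 0, 1) + p (0, 1, 1) ∧
  p (1, 1, 1) + p (0, 0, 1) + p (0, 1, 0) + p (1, 0, 0)
    ≤ p (0, 0, 0) + p (1, 1, 0) + p (1, 0, 1) + p (0, 1, 1)

theorem good3 {p : X → ℝ} (h : Adm p) (h1 : p (1, 1, 0) ≤ p (0, 0, 0))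
    (h2 : p (1, 0, 1) ≤ p (1, 1, 0)) (h3 : p (0, 1, 1) ≤ p (1, 0, 1)) : Good p := by
  obtain ⟨hp, hpos, hle⟩ := h
  have := n52 ![p (0, 0, 0), p (1, 1, 0), p (1, 0, 1), p (0, 1, 1)]
    ![p (0, 0, 0) + p (1, 1, 0) + p (1, 0, 1) + p (0, 1, 1)
      - (p (1, 1, 1) + p (0, 0, 1) + p (0, 1, 0) + p (1, 0, 0)),
      p (1, 1, 1), p (0, 0, 1), p (0, 1, 0), p (1, 0, 0)]
    ⟨![p (0, 0, 0) - p (1, 1, 0), p (1, 1, 0) - p (1, 0, 1), p (1, 0, 1) - p (0, 1, 1), p (0, 1, 1)],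
      fun j => by fin_cases j <;> simp [h1, h2, h3, hp],
      fun k => by fin_cases k <;> simp [Fin.sum_univ_succ]⟩
    ⟨![p (0, 0, 0) + p (1, 1, 0) + p (1, 0, 1) + p (0, 1, 1)
      - (p (1, 1, 1) + p (0, 0, 1) + p (0, 1, 0) + p (1, 0, 0)),
      p (1, 1, 1), p (0, 0, 1), p (0, 1, 0), p (1, 0, 0)],
      fun j => by fin_cases j <;> simp [hle, hp],
      fun k => by fin_cases k <;> simp [Fin.sum_univ_succ]⟩
    (by simp [Fin.sum_univ_succ]; ring) (by simp [Fin.sum_univ_succ]; linarith)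
  refine (congrArg Good (funext ?_)).mp this
  rintro ⟨x, y, z⟩
  fin_cases x <;> fin_cases y <;> fin_cases z <;> rfl

theorem Adm.sw01 {p : X → ℝ} (h : Adm p) : Adm (p ∘ sw01) :=
  ⟨fun _ => h.1 _, by have := h.2.1; simp only [Function.comp, MP_dd6cbd_pr.sw01]; linarith,
    by have := h.2.2; simp only [Function.comp, MP_dd6cbd_pr.sw01]; linarith⟩

theorem Adm.sw12 {p : X → ℝ} (h : Adm p) : Adm (p ∘ sw12) :=
  ⟨fun _ => h.1 _, by have := h.2.1; simp only [Function.comp, MP_dd6cbd_pr.sw12]; linarith,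
    by have := h.2.2; simp only [Function.comp, MP_dd6cbd_pr.sw12]; linarith⟩

theorem good2 {p : X → ℝ} (h : Adm p) (h1 : p (1, 1, 0) ≤ p (0, 0, 0))
    (h2 : p (1, 0, 1) ≤ p (0, 0, 0)) (h3 : p (0, 1, 1) ≤ p (0, 0, 0)) : Good p := by
  rcases le_total (p (1, 0, 1)) (p (1, 1, 0)) with a | a <;>
  rcases le_total (p (0, 1, 1)) (p (1, 0, 1)) with b | b <;>
  rcases le_total (p (0, 1, 1)) (p (1, 1, 0)) with c | c
  · exact good3 h h1 a b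
  · exact good3 h h1 a b
  · exact sym_sw01 p (good3 h.sw01 h1 c b)
  · exact sym_sw01 p (sym_sw12 _ (good3 h.sw01.sw12 h3 c a))
  · exact sym_sw12 p (good3 h.sw12 h2 a c)
  · exact sym_sw12 p (sym_sw01 _ (good3 h.sw12.sw01 h2 b c))
  · exact sym_sw12 p (good3 h.sw12 h2 a c)
  · exact sym_sw01 p (sym_sw12 _ (sym_sw01 _ (good3 h.sw01.sw12.sw01 h3 b a)))

def fl01 : X → X := fl0 ∘ sw01 ∘ fl0

theorem sym_fl01 : Sym fl01 := sym_fl0.comp (sym_sw01.comp sym_fl0)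

theorem Adm.fl01 {p : X → ℝ} (h : Adm p) : Adm (p ∘ fl01) :=
  ⟨fun _ => h.1 _, by
    change 0 < p (1, 1, 0) + p (0, 0, 0) + p (1, 0, 1) + p (0, 1, 1)
    linarith [h.2.1], by
    change p (0, 0, 1) + p (1, 1, 1) + p (0, 1, 0) + p (1, 0, 0)
      ≤ p (1, 1, 0) + p (0, 0, 0) + p (1, 0, 1) + p (0, 1, 1)
    linarith [h.2.2]⟩

theorem good2' {p : X → ℝ} (h : Adm p) (h1 : p (0, 0, 0) ≤ p (1, 1, 0))
    (h2 : p (1, 0, 1) ≤ p (1, 1, 0)) (h3 : p (0, 1, 1) ≤ p (1, 1, 0)) : Good p :=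
  sym_fl01 p (good2 h.fl01 h1 h2 h3)

theorem good1 {p : X → ℝ} (h : Adm p) : Good p := by
  by_cases a : p (1, 1, 0) ≤ p (0, 0, 0) ∧ p (1, 0, 1) ≤ p (0, 0, 0) ∧ p (0, 1, 1) ≤ p (0, 0, 0)
  · exact good2 h a.1 a.2.1 a.2.2
  by_cases b : p (0, 0, 0) ≤ p (1, 1, 0) ∧ p (1, 0, 1) ≤ p (1, 1, 0) ∧ p (0, 1, 1) ≤ p (1, 1, 0)
  · exact good2' h b.1 b.2.1 b.2.2
  by_cases c : p (0, 0, 0) ≤ p (1, 0, 1) ∧ p (1, 1, 0) ≤ p (1, 0, 1) ∧ p (0, 1, 1) ≤ p (1, 0, 1)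
  · exact sym_sw12 p (good2' h.sw12 c.1 c.2.1 c.2.2)
  have d : p (0, 0, 0) ≤ p (0, 1, 1) ∧ p (1, 1, 0) ≤ p (0, 1, 1) ∧ p (1, 0, 1) ≤ p (0, 1, 1) := by
    simp only [not_and_or, not_le] at a b c
    refine ⟨?_, ?_, ?_⟩ <;> rcases a with a | a | a <;> rcases b with b | b | b <;>
      rcases c with c | c | c <;> linarith
  exact sym_sw01 p (sym_sw12 _ (good2' h.sw01.sw12 d.1 d.2.1 d.2.2))

theorem good0 {p : X → ℝ} (hp : ∀ v, 0 ≤ p v) (h1 : ∑ v, p v = 1) : Good p := by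
  simp [Fintype.sum_prod_type] at h1
  rcases le_total (p (1, 1, 1) + p (0, 0, 1) + p (0, 1, 0) + p (1, 0, 0))
    (p (0, 0, 0) + p (1, 1, 0) + p (1, 0, 1) + p (0, 1, 1)) with h | h
  · exact good1 ⟨hp, by linarith, h⟩
  · refine sym_fl0 p (good1 ⟨fun _ => hp _, ?_, ?_⟩)
    · change 0 < p (1, 0, 0) + p (0, 1, 0) + p (0, 0, 1) + p (1, 1, 1)
      linarith
    · change p (0, 1, 1) + p (1, 0, 1) + p (1, 1, 0) + p (0, 0, 0)
        ≤ p (1, 0, 0) + p (0, 1, 0) + p (0, 0, 1) + p (1, 1, 1)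
      linarith

/-! The model in terms of positive product weights. -/

def eqv : (Fin 3 → Fin 2) ≃ X where
  toFun v := (v 0, v 1, v 2)
  invFun x := ![x.1, x.2.1, x.2.2]
  left_inv v := by funext i; fin_cases i <;> rfl
  right_inv _ := rfl

def mix (a0 a1 a2 b0 b1 b2 : Fin 2 → ℝ) (v : X) : ℝ :=
  a0 v.1 * a1 v.2.1 * a2 v.2.2 + b0 v.1 * b1 v.2.1 * b2 v.2.2

theorem weight_eq (W : Fin 1 → Fin 3 → ℝ) (b : Fin 3 → ℝ) (c : Fin 1 → ℝ) (v : Fin 3 → Fin 2) :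
    weight W b c v = mix (fun x => Real.exp (b 0 * (x : ℕ))) (fun x => Real.exp (b 1 * (x : ℕ)))
      (fun x => Real.exp (b 2 * (x : ℕ))) (fun x => Real.exp (c 0 + (W 0 0 + b 0) * (x : ℕ)))
      (fun x => Real.exp ((W 0 1 + b 1) * (x : ℕ))) (fun x => Real.exp ((W 0 2 + b 2) * (x : ℕ)))
      (eqv v) := by
  rw [show eqv v = (v 0, v 1, v 2) from rfl]
  unfold weight mix
  rw [← (Equiv.funUnique (Fin 1) (Fin 2)).symm.sum_comp, Fin.sum_univ_two]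
  simp only [← Real.exp_add, Fin.sum_univ_three, Fin.sum_univ_one]
  congr 2
  · simp
  · simp; ring

theorem mem_RBM {a0 a1 a2 b0 b1 b2 : Fin 2 → ℝ}
    (h : ∀ x, 0 < a0 x ∧ 0 < a1 x ∧ 0 < a2 x ∧ 0 < b0 x ∧ 0 < b1 x ∧ 0 < b2 x) :
    (fun v => mix a0 a1 a2 b0 b1 b2 (eqv v) / ∑ u, mix a0 a1 a2 b0 b1 b2 u) ∈ RBM 3 1 := by
  obtain ⟨p0, p1, p2, q0, q1, q2⟩ := h 0
  obtain ⟨r0, r1, r2, s0, s1, s2⟩ := h 1
  have e : ∀ v : Fin 3 → Fin 2, weight ![![Real.log (b0 1 / b0 0) - Real.log (a0 1 / a0 0),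
      Real.log (b1 1 / b1 0) - Real.log (a1 1 / a1 0), Real.log (b2 1 / b2 0) - Real.log (a2 1 / a2 0)]]
      ![Real.log (a0 1 / a0 0), Real.log (a1 1 / a1 0), Real.log (a2 1 / a2 0)]
      ![Real.log (b0 0 * b1 0 * b2 0 / (a0 0 * a1 0 * a2 0))] v
      = mix a0 a1 a2 b0 b1 b2 (eqv v) / (a0 0 * a1 0 * a2 0) := by
    intro v
    rw [weight_eq]
    generalize eqv v = w
    obtain ⟨x, y, z⟩ := w
    have l1 := Real.exp_log (div_pos r0 p0)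
    have l2 := Real.exp_log (div_pos r1 p1)
    have l3 := Real.exp_log (div_pos r2 p2)
    have l4 := Real.exp_log (div_pos s0 q0)
    have l5 := Real.exp_log (div_pos s1 q1)
    have l6 := Real.exp_log (div_pos s2 q2)
    have l7 := Real.exp_log (x := b0 0 * b1 0 * b2 0 / (a0 0 * a1 0 * a2 0)) (by positivity)
    fin_cases x <;> fin_cases y <;> fin_cases z <;>
      simp [mix, Real.exp_add, l1, l2, l3, l4, l5, l6, l7] <;> field_simp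
  refine ⟨_, _, _, fun v => Eq.trans ?_ (congrArg₂ (· / ·) (e v) (sum_congr rfl fun u _ => e u)).symm⟩
  rw [← sum_div, eqv.sum_comp (mix a0 a1 a2 b0 b1 b2), div_div_div_cancel_right₀ (by positivity)]

theorem upper {p : (Fin 3 → Fin 2) → ℝ} (hp : p ∈ stdSimplex ℝ (Fin 3 → Fin 2)) {ε : ℝ}
    (hε : 0 < ε) : ∃ q ∈ RBM 3 1, KL p q ≤ cst + ε := by
  have hs : ∑ v, (p ∘ eqv.symm) v = 1 := (eqv.symm.sum_comp p).trans hp.2
  obtain ⟨q, ⟨a0, a1, a2, b0, b1, b2, hab, hq⟩, hZ, hok⟩ := 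
    good0 (p := p ∘ eqv.symm) (fun v => hp.1 _) hs
  set M : ℝ → X → ℝ := fun η => mix (fun x => a0 x + η) (fun x => a1 x + η) (fun x => a2 x + η)
    (fun x => b0 x + η) (fun x => b1 x + η) (fun x => b2 x + η) with hM
  have hc : Continuous fun η => ∑ u, M η u := by simp only [hM, mix]; fun_prop
  have h0 : ∑ u, M 0 u < 1 + ε := by
    have : ∑ u, M 0 u = ∑ u, q u := by simp [hM, mix, hq]
    linarith
  obtain ⟨η, hη1, hη⟩ := (((hc.tendsto 0).eventually (gt_mem_nhds h0)).filter_mono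
    (nhdsWithin_le_nhds (s := Set.Ioi 0))).and self_mem_nhdsWithin |>.exists
  have hη : 0 < η := hη
  have hpos : ∀ x, 0 < a0 x + η ∧ 0 < a1 x + η ∧ 0 < a2 x + η ∧ 0 < b0 x + η ∧ 0 < b1 x + η ∧
      0 < b2 x + η := fun x => by
    obtain ⟨h1, h2, h3, h4, h5, h6⟩ := hab x
    refine ⟨?_, ?_, ?_, ?_, ?_, ?_⟩ <;> linarith
  have hMp : ∀ u, 0 < M η u := fun u => by
    have h1 := hpos u.1; have h2 := hpos u.2.1; have h3 := hpos u.2.2
    exact add_pos (mul_pos (mul_pos h1.1 h2.2.1) h3.2.2.1)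
      (mul_pos (mul_pos h1.2.2.2.1 h2.2.2.2.2.1) h3.2.2.2.2.2)
  have hle : ∀ u, q u ≤ M η u := fun u => by
    obtain ⟨h1, -, -, h2, -, -⟩ := hab u.1
    obtain ⟨-, h3, -, -, h4, -⟩ := hab u.2.1
    obtain ⟨-, -, h5, -, -, h6⟩ := hab u.2.2
    rw [hq]
    simp only [hM, mix]
    gcongr <;> linarith
  have hZp : 0 < ∑ u, M η u := sum_pos (fun u _ => hMp u) univ_nonempty
  refine ⟨_, mem_RBM hpos, ?_⟩
  have h1 := (hok.mono hle).2.2.2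
  rw [hs, mul_one] at h1
  have h2 : KL p (fun v => M η (eqv v) / ∑ u, M η u)
      = KL (p ∘ eqv.symm) (M η) + Real.log (∑ u, M η u) := by
    unfold KL
    rw [← eqv.symm.sum_comp, ← one_mul (Real.log (∑ u, M η u)), ← hs, sum_mul, ← sum_add_distrib]
    refine sum_congr rfl fun u _ => ?_
    simp only [Function.comp, Equiv.apply_symm_apply]
    rcases (hp.1 (eqv.symm u)).eq_or_lt with h | h
    · rw [← h]; simp
    · rw [div_div_eq_mul_div, mul_div_right_comm, Real.log_mul (div_pos h (hMp u)).ne' hZp.ne']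
      ring
  have h3 := Real.log_le_sub_one_of_pos hZp
  change KL p (fun v => M η (eqv v) / ∑ u, M η u) ≤ _
  linarith

theorem amgm {a w1 w2 w3 t u1 u2 u3 S : ℝ} (ha : 0 < a) (h1 : 0 < w1) (h2 : 0 < w2) (h3 : 0 < w3)
    (ht : 0 < t) (k1 : w2 * w3 ≤ t * u1) (k2 : w1 * w3 ≤ t * u2) (k3 : w1 * w2 ≤ t * u3)
    (hS : a + w1 + w2 + w3 + t + u1 + u2 + u3 = S) :
    4 * cst ≤ Real.log (S / 4 / a) + Real.log (S / 4 / w1) + Real.log (S / 4 / w2)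
      + Real.log (S / 4 / w3) := by
  subst hS
  obtain ⟨s1, s2⟩ := sqrt3_bounds
  have s3 : √3 * √3 = 3 := Real.mul_self_sqrt (by norm_num)
  obtain ⟨g, hg, hg3⟩ : ∃ g : ℝ, 0 < g ∧ g ^ 3 = w1 * w2 * w3 :=
    ⟨(w1 * w2 * w3) ^ ((3 : ℕ) : ℝ)⁻¹, by positivity,
      Real.rpow_inv_natCast_pow (by positivity) (by norm_num)⟩
  have am3 : ∀ x y z m : ℝ, 0 < x → 0 < y → 0 < z → 0 < m → m ^ 3 = x * y * z →
      3 * m ≤ x + y + z := by
    intro x y z m hx hy hz hm h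
    refine le_of_pow_le_pow_left₀ (n := 3) (by norm_num) (by positivity) ?_
    rw [mul_pow, h]
    nlinarith [mul_nonneg hx.le (sq_nonneg (y - z)), mul_nonneg hy.le (sq_nonneg (x - z)),
      mul_nonneg hz.le (sq_nonneg (x - y)), mul_nonneg (add_pos (add_pos hx hy) hz).le
        (add_nonneg (add_nonneg (sq_nonneg (y - z)) (sq_nonneg (x - z))) (sq_nonneg (x - y)))]
  have b1 := am3 w1 w2 w3 g h1 h2 h3 hg hg3
  have b2 := am3 (w2 * w3) (w1 * w3) (w1 * w2) (g ^ 2) (by positivity) (by positivity)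
    (by positivity) (by positivity) (by rw [← pow_mul, mul_comm 2 3, pow_mul, hg3]; ring)
  have b3 : 2 * √3 * g ≤ t + u1 + u2 + u3 := by
    refine le_of_mul_le_mul_left ?_ ht
    nlinarith [sq_nonneg (t - √3 * g)]
  set γ := 1 + 2 / √3 with hγ
  have hγ' : 3 * γ = 3 + 2 * √3 := by
    rw [hγ]; field_simp; linear_combination -2 * s3
  have γp : 0 < γ := by positivity
  set T := (a + w1 + w2 + w3 + t + u1 + u2 + u3) / 4 with hT
  have b4 : a + 3 * (γ * g) ≤ 4 * T := by rw [hT, ← mul_assoc, hγ']; linarith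
  have hx : 0 < γ * g := by positivity
  have Tp : 0 < T := by linarith
  have b5 : a * (γ * g) ^ 3 ≤ T ^ 4 := by
    set x := γ * g
    refine le_trans ?_ (pow_le_pow_left₀ (by positivity) (show (a + 3 * x) / 4 ≤ T by linarith) 4)
    nlinarith [mul_nonneg (sq_nonneg (a - x)) (show 0 ≤ a ^ 2 + 14 * a * x + 81 * x ^ 2 by positivity)]
  rw [← Real.log_mul (by positivity) (by positivity), ← Real.log_mul (by positivity) (by positivity),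
    ← Real.log_mul (by positivity) (by positivity)]
  have b6 : γ ^ 3 ≤ T / a * (T / w1) * (T / w2) * (T / w3) := by
    rw [show T / a * (T / w1) * (T / w2) * (T / w3) = T ^ 4 / (a * (w1 * w2 * w3)) by
      field_simp, le_div_iff₀ (by positivity), ← hg3]
    linarith [show γ ^ 3 * (a * g ^ 3) = a * (γ * g) ^ 3 by ring]
  have := Real.log_le_log (by positivity) b6
  rw [Real.log_pow] at this
  unfold cst
  push_cast at this
  linarith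

noncomputable def pstar (v : Fin 3 → Fin 2) : ℝ := if v 0 + v 1 + v 2 = 0 then 1 / 4 else 0

theorem pstar_mem : pstar ∈ stdSimplex ℝ (Fin 3 → Fin 2) := by
  refine ⟨fun v => by unfold pstar; split_ifs <;> norm_num, ?_⟩
  rw [← eqv.symm.sum_comp]
  simp [Fintype.sum_prod_type, pstar, eqv]
  norm_num

theorem lowerX {a0 a1 a2 b0 b1 b2 : Fin 2 → ℝ}
    (h : ∀ x, 0 < a0 x ∧ 0 < a1 x ∧ 0 < a2 x ∧ 0 < b0 x ∧ 0 < b1 x ∧ 0 < b2 x) {Q : X → ℝ}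
    (hQ : Q = mix a0 a1 a2 b0 b1 b2) :
    4 * cst ≤ Real.log ((∑ v, Q v) / 4 / Q (0, 0, 0)) + Real.log ((∑ v, Q v) / 4 / Q (0, 1, 1))
      + Real.log ((∑ v, Q v) / 4 / Q (1, 0, 1)) + Real.log ((∑ v, Q v) / 4 / Q (1, 1, 0)) := by
  have hp : ∀ u, 0 < Q u := fun u => by
    have h1 := h u.1; have h2 := h u.2.1; have h3 := h u.2.2
    rw [hQ]
    exact add_pos (mul_pos (mul_pos h1.1 h2.2.1) h3.2.2.1)
      (mul_pos (mul_pos h1.2.2.2.1 h2.2.2.2.2.1) h3.2.2.2.2.2)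
  set d0 := a0 0 * b0 1 - a0 1 * b0 0 with hd0
  set d1 := a1 0 * b1 1 - a1 1 * b1 0 with hd1
  set d2 := a2 0 * b2 1 - a2 1 * b2 0 with hd2
  have D0 : ∀ x, ∃ m, 0 < m ∧ Q (x, 0, 0) * Q (x, 1, 1) - Q (x, 0, 1) * Q (x, 1, 0) = m * (d1 * d2) :=
    fun x => ⟨a0 x * b0 x, mul_pos (h x).1 (h x).2.2.2.1, by simp only [hQ, mix, hd1, hd2]; ring⟩
  have D1 : ∀ x, ∃ m, 0 < m ∧ Q (0, x, 0) * Q (1, x, 1) - Q (0, x, 1) * Q (1, x, 0) = m * (d0 * d2) :=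
    fun x => ⟨a1 x * b1 x, mul_pos (h x).2.1 (h x).2.2.2.2.1, by simp only [hQ, mix, hd0, hd2]; ring⟩
  have D2 : ∀ x, ∃ m, 0 < m ∧ Q (0, 0, x) * Q (1, 1, x) - Q (0, 1, x) * Q (1, 0, x) = m * (d0 * d1) :=
    fun x => ⟨a2 x * b2 x, mul_pos (h x).2.2.1 (h x).2.2.2.2.2, by
      simp only [hQ, mix, hd0, hd1]; ring⟩
  have P : ∀ {A B d : ℝ}, (∃ m, 0 < m ∧ A - B = m * d) → 0 ≤ d → B ≤ A := by
    rintro A B d ⟨m, hm, e⟩ hd; linarith [mul_nonneg hm.le hd]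
  have N : ∀ {A B d : ℝ}, (∃ m, 0 < m ∧ A - B = m * d) → d ≤ 0 → A ≤ B := by
    rintro A B d ⟨m, hm, e⟩ hd; linarith [mul_nonpos_of_nonneg_of_nonpos hm.le hd]
  have hS : ∑ v, Q v = Q (0, 0, 0) + Q (0, 0, 1) + Q (0, 1, 0) + Q (0, 1, 1) + Q (1, 0, 0)
      + Q (1, 0, 1) + Q (1, 1, 0) + Q (1, 1, 1) := by simp [Fintype.sum_prod_type]; ring
  have c0 : 0 ≤ d1 * d2 ∧ 0 ≤ d0 * d2 ∧ 0 ≤ d0 * d1 ∨ 0 ≤ d1 * d2 ∧ d0 * d2 ≤ 0 ∧ d0 * d1 ≤ 0 ∨
      d1 * d2 ≤ 0 ∧ 0 ≤ d0 * d2 ∧ d0 * d1 ≤ 0 ∨ d1 * d2 ≤ 0 ∧ d0 * d2 ≤ 0 ∧ 0 ≤ d0 * d1 := by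
    rcases le_total 0 d0 with x | x <;> rcases le_total 0 d1 with y | y <;>
      rcases le_total 0 d2 with z | z <;>
      simp only [mul_nonneg, mul_nonneg_of_nonpos_of_nonpos, mul_nonpos_of_nonneg_of_nonpos,
        mul_nonpos_of_nonpos_of_nonneg, x, y, z, and_self, true_or, or_true]
  clear_value d0 d1 d2
  rcases c0 with ⟨x, y, z⟩ | ⟨x, y, z⟩ | ⟨x, y, z⟩ | ⟨x, y, z⟩
  · have := amgm (S := ∑ v, Q v) (u1 := Q (1, 0, 0)) (u2 := Q (0, 1, 0)) (u3 := Q (0, 0, 1))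
      (hp (0, 0, 0)) (hp (0, 1, 1)) (hp (1, 0, 1)) (hp (1, 1, 0)) (hp (1, 1, 1))
      (by linarith [P (D0 1) x]) (by linarith [P (D1 1) y]) (by linarith [P (D2 1) z])
      (by linarith)
    linarith
  · have := amgm (S := ∑ v, Q v) (u1 := Q (1, 1, 1)) (u2 := Q (0, 1, 0)) (u3 := Q (0, 0, 1))
      (hp (0, 1, 1)) (hp (0, 0, 0)) (hp (1, 0, 1)) (hp (1, 1, 0)) (hp (1, 0, 0))
      (by linarith [P (D0 1) x]) (by linarith [N (D2 0) z]) (by linarith [N (D1 0) y])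
      (by linarith)
    linarith
  · have := amgm (S := ∑ v, Q v) (u1 := Q (1, 1, 1)) (u2 := Q (1, 0, 0)) (u3 := Q (0, 0, 1))
      (hp (1, 0, 1)) (hp (0, 0, 0)) (hp (0, 1, 1)) (hp (1, 1, 0)) (hp (0, 1, 0))
      (by linarith [P (D1 1) y]) (by linarith [N (D2 0) z]) (by linarith [N (D0 0) x])
      (by linarith)
    linarith
  · have := amgm (S := ∑ v, Q v) (u1 := Q (1, 1, 1)) (u2 := Q (1, 0, 0)) (u3 := Q (0, 1, 0))
      (hp (1, 1, 0)) (hp (0, 0, 0)) (hp (0, 1, 1)) (hp (1, 0, 1)) (hp (0, 0, 1))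
      (by linarith [P (D2 1) z]) (by linarith [N (D1 0) y]) (by linarith [N (D0 0) x])
      (by linarith)
    linarith

theorem lower {q : (Fin 3 → Fin 2) → ℝ} (hq : q ∈ RBM 3 1) : cst ≤ KL pstar q := by
  obtain ⟨W, b, c, hq⟩ := hq
  simp only [weight_eq] at hq
  rw [eqv.sum_comp (mix _ _ _ _ _ _)] at hq
  have e : KL pstar q = 1 / 4 * (Real.log (1 / 4 / q (eqv.symm (0, 0, 0)))
      + Real.log (1 / 4 / q (eqv.symm (0, 1, 1))) + Real.log (1 / 4 / q (eqv.symm (1, 0, 1)))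
      + Real.log (1 / 4 / q (eqv.symm (1, 1, 0)))) := by
    unfold KL
    rw [← eqv.symm.sum_comp]
    simp [Fintype.sum_prod_type, pstar, eqv]
    ring
  have e2 : ∀ x y : ℝ, 1 / 4 / (x / y) = y / 4 / x := fun x y => by
    rw [div_div_eq_mul_div]; ring
  rw [e]
  simp only [hq, Equiv.apply_symm_apply, e2]
  have := lowerX (fun x => ⟨Real.exp_pos (b 0 * (x : ℕ)), Real.exp_pos (b 1 * (x : ℕ)),
    Real.exp_pos (b 2 * (x : ℕ)), Real.exp_pos (c 0 + (W 0 0 + b 0) * (x : ℕ)),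
    Real.exp_pos ((W 0 1 + b 1) * (x : ℕ)), Real.exp_pos ((W 0 2 + b 2) * (x : ℕ))⟩) rfl
  linarith

theorem cst_eq : cst = -(3 / 4) * Real.log (2 * √3 - 3) := by
  obtain ⟨s1, s2⟩ := sqrt3_bounds
  have s3 : √3 * √3 = 3 := Real.mul_self_sqrt (by norm_num)
  have : 1 + 2 / √3 = (2 * √3 - 3)⁻¹ := by
    refine eq_inv_of_mul_eq_one_left ?_
    field_simp; linear_combination 2 * s3
  unfold cst
  rw [this, Real.log_inv]; ring

theorem KL_nonneg {p q : (Fin 3 → Fin 2) → ℝ} (hp : p ∈ stdSimplex ℝ (Fin 3 → Fin 2))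
    (hq : q ∈ RBM 3 1) : 0 ≤ KL p q := by
  obtain ⟨W, b, c, hq⟩ := hq
  have hw : ∀ v, 0 < weight W b c v := fun v => sum_pos (fun _ _ => Real.exp_pos _) univ_nonempty
  have hZ : 0 < ∑ u, weight W b c u := sum_pos (fun u _ => hw u) univ_nonempty
  have h1 : ∑ v, q v = 1 := by simp only [hq]; rw [← sum_div, div_self hZ.ne']
  have h2 : ∀ v, 0 < q v := fun v => by rw [hq]; exact div_pos (hw v) hZ
  have := sum_le_sum fun v (_ : v ∈ univ) =>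
    logsum_one (hp.1 v) (h2 v).le (fun _ => h2 v) one_pos one_pos
  simp only [div_one, Real.log_one, mul_zero, zero_add, mul_one, sum_sub_distrib, hp.2, h1,
    sub_self] at this
  exact this

theorem main_result : IsGreatest ((fun p => sInf (KL p '' RBM 3 1)) '' stdSimplex ℝ (Fin 3 → Fin 2))
    (-(3 / 4) * Real.log (2 * √3 - 3)) := by
  rw [← cst_eq]
  have hle : ∀ p ∈ stdSimplex ℝ (Fin 3 → Fin 2), sInf (KL p '' RBM 3 1) ≤ cst := by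
    intro p hp
    refine le_of_forall_pos_le_add fun ε hε => ?_
    obtain ⟨q, hq, h⟩ := upper hp hε
    have hb : BddBelow (KL p '' RBM 3 1) := ⟨0, by rintro _ ⟨q, hq, rfl⟩; exact KL_nonneg hp hq⟩
    exact (csInf_le hb (Set.mem_image_of_mem _ hq)).trans h
  refine ⟨⟨pstar, pstar_mem, le_antisymm (hle _ pstar_mem) ?_⟩, ?_⟩
  · obtain ⟨q, hq, -⟩ := upper pstar_mem one_pos
    exact le_csInf ⟨_, q, hq, rfl⟩ (by rintro _ ⟨q, hq, rfl⟩; exact lower hq)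
  · rintro _ ⟨p, hp, rfl⟩
    exact hle p hp

end Pool.Agent.Lib.MP_dd6cbd_pr
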